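import Pool.Agent.Helper34.LL.Defs
import Pool.Agent.Helper34.SD.Grow

/-!
# Post's tag system (MP_41f897_lc), module LE: the deterministic part of the length law
-/

set_option autoImplicit false

namespace Pool.Agent.Helper34.LL

open Pool.Agent.Helper34.PT Pool.Agent.Helper34.SD

/-! ## lengths and definedness -/

theorem step_len {w1 w2 : List Bool} (h : step w1 = some w2) :
    w2.length ≤ w1.length + 1 ∧ w1.length ≤ w2.length + 1 := by
  match w1 with
  | [] => simp [step] at h
  | [a] => simp [step] at h
  | [a, b] => simp [step] at h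
  | a :: b :: c :: r =>
    cases a <;> simp [step] at h <;> subst h <;> simp

theorem run_len (s : ℕ) : ∀ w1 w2 : List Bool, run s w1 = some w2 →
    w2.length ≤ w1.length + s ∧ w1.length ≤ w2.length + s := by
  induction s with
  | zero =>
    intro w1 w2 h
    simp only [run, Option.some.injEq] at h
    subst h
    simp
  | succ s ih =>
    intro w1 w2 h
    simp only [run] at h
    cases hs : step w1 with
    | none => rw [hs] at h; simp at h
    | some w3 =>
      rw [hs, Option.bind_some] at h
      have h1 := step_len hs
      have h2 := ih w3 w2 h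
      omega

theorem run_def {t t' : ℕ} {w w' : List Bool} (h : run t' w = some w') (ht : t ≤ t') :
    ∃ w'', run t w = some w'' ∧ run (t' - t) w'' = some w' := by
  obtain ⟨d, rfl⟩ := Nat.exists_eq_add_of_le ht
  rw [run_add] at h
  cases hr : run t w with
  | none => rw [hr] at h; simp at h
  | some w'' =>
    rw [hr, Option.bind_some] at h
    exact ⟨w'', rfl, by rwa [Nat.add_sub_cancel_left]⟩

/-! ## full passes -/

theorem sec_two (c d : Bool) (U : List Bool) (s : Fin 3) :
    2 ≤ (bin (sec (c :: d :: U) s)).length := by
  have e : c :: d :: U = [c, d] ++ U := rfl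
  rw [e, sec_append, bin_append, List.length_append]
  have h : ∀ (c d : Bool) (s : Fin 3), 2 ≤ (bin (sec [c, d] s)).length := by decide
  have := h c d s
  omega

theorem pass_full (W : List Bool) (s : Fin 3) (h : 3 ≤ W.length) :
    run (sec W s).length ((bin W).drop s) = some ((bin (sec W s)).drop (ext W s)) := by
  match W, h with
  | c :: d :: e :: W, _ =>
    have e1 : c :: d :: e :: W = [c, d] ++ (e :: W) := rfl
    rw [e1, sec_append, ext_append, bin_append, bin_append, List.length_append, run_add]
    have h1 := run_word [c, d] s (bin (e :: W)) (by cases e <;> simp [bin])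
    rw [h1, Option.bind_some]
    exact run_word (e :: W) (ext [c, d] s) (bin (sec [c, d] s)) (sec_two c d [] s)

theorem raw_full (w : List Bool) (h : 5 ≤ w.length) :
    run (rsec w 0).length w = some ((bin (rsec w 0)).drop (rext w 0)) := by
  match w, h with
  | a :: b :: c :: d :: e :: w, _ =>
    have e1 : a :: b :: c :: d :: e :: w = [a, b, c] ++ (d :: e :: w) := rfl
    rw [e1, rsec_append, rext_append, bin_append, List.length_append, run_add]
    have h1 := raw_word [a, b, c] 0 (d :: e :: w) (by simp)
    have h2 : (([a, b, c] ++ d :: e :: w).drop ((0 : Fin 3) : ℕ)) = [a, b, c] ++ d :: e :: w := rfl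
    rw [h2] at h1
    rw [h1, Option.bind_some]
    refine raw_word (d :: e :: w) (rext [a, b, c] 0) (bin (rsec [a, b, c] 0)) ?_
    have h3 : ∀ a b c : Bool, 2 ≤ (bin (rsec [a, b, c] 0)).length := by decide
    exact h3 a b c

/-! ## the words at the level `j` -/

/-- descendants of the first `p` letters after the pass `j` -/
def Aw (w : List Bool) (j p : ℕ) : List Bool := rsecs (w.take p) (X w (j + 1))

theorem Aw_all (w : List Bool) (j : ℕ) : Aw w j w.length = (st w j).1 := by
  unfold Aw
  rw [List.take_length, rsecs_X]

theorem Aw_zero_pass (w : List Bool) (p : ℕ) : Aw w 0 p = rsec (w.take p) 0 := rfl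

theorem Aw_succ (w : List Bool) (j p : ℕ) : Aw w (j + 1) p = sec (Aw w j p) (st w j).2 := by
  unfold Aw
  rw [X_snoc w (j + 1), X_succ]
  show secs (rsec (w.take p) 0) (ract (X w j) w ++ [(st w j).2]) = _
  rw [secs_snoc]
  rfl

/-- descendants of the other letters -/
def Bw (w : List Bool) (j p : ℕ) : List Bool :=
  rsecs (w.drop p) (ract (X w (j + 1)) (w.take p))

theorem Aw_Bw (w : List Bool) (j p : ℕ) : (st w j).1 = Aw w j p ++ Bw w j p := by
  unfold Aw Bw
  rw [← rsecs_append, List.take_append_drop, rsecs_X]

theorem Aw_zero (w : List Bool) (j : ℕ) : Aw w j 0 = [] := by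
  induction j with
  | zero => rfl
  | succ j ih => rw [Aw_succ, ih]; rfl

theorem FF_Aw (w : List Bool) (j p : ℕ) : FF (X w (j + 1)) (w.take p) = (bin (Aw w j p)).length := rfl

theorem secs_length_le (v : List (Fin 3)) : ∀ W : List Bool,
    (secs W v).length ≤ 2 ^ v.length * W.length := by
  induction v with
  | nil => intro W; simp [secs]
  | cons s v ih =>
    intro W
    have h1 := ih (sec W s)
    have h2 := sec_length_le W s
    calc (secs W (s :: v)).length ≤ 2 ^ v.length * (sec W s).length := h1
      _ ≤ 2 ^ v.length * (2 * W.length) := Nat.mul_le_mul_left _ h2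
      _ = 2 ^ (s :: v).length * W.length := by rw [List.length_cons]; ring

theorem Aw_step (w : List Bool) (j p : ℕ) : (Aw w j (p + 1)).length ≤ (Aw w j p).length + 2 ^ j := by
  by_cases hp : p < w.length
  · have e : w.take (p + 1) = w.take p ++ [w[p]] := by
      rw [List.take_add_one, List.getElem?_eq_getElem hp]
      rfl
    unfold Aw
    rw [e, rsecs_append, List.length_append]
    have hl : (ract (X w (j + 1)) (w.take p)).length = j + 1 := by rw [ract_length, X_length]
    revert hl
    generalize ract (X w (j + 1)) (w.take p) = y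
    intro hl
    cases y with
    | nil => simp at hl
    | cons s v =>
      have hv : v.length = j := by simpa using hl
      have h1 := secs_length_le v (rsec [w[p]] s)
      have h2 := rsec_length [w[p]] s
      have h3 : 2 ^ v.length * (rsec [w[p]] s).length ≤ 2 ^ j * 1 := by
        rw [hv]
        exact Nat.mul_le_mul_left _ h2
      show _ + (secs (rsec [w[p]] s) v).length ≤ _
      omega
  · have e : w.take (p + 1) = w.take p := by
      rw [List.take_of_length_le (by omega), List.take_of_length_le (by omega)]
    unfold Aw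
    rw [e]
    exact Nat.le_add_right _ _

/-- intermediate value: the times -/
theorem find_p (w : List Bool) (j s : ℕ) (hs : s ≤ (st w j).1.length) :
    ∃ p ≤ w.length, s ≤ (Aw w j p).length ∧ (Aw w j p).length ≤ s + 2 ^ j := by
  classical
  have hex : ∃ p, s ≤ (Aw w j p).length := ⟨w.length, by rw [Aw_all]; exact hs⟩
  refine ⟨Nat.find hex, Nat.find_min' hex (by rw [Aw_all]; exact hs), Nat.find_spec hex, ?_⟩
  by_cases h0 : Nat.find hex = 0
  · rw [h0, Aw_zero]
    simp
  · obtain ⟨q, hq⟩ := Nat.exists_eq_succ_of_ne_zero h0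
    have h1 := Nat.find_min hex (m := q) (by omega)
    have h2 := Aw_step w j q
    rw [hq]
    show (Aw w j (q + 1)).length ≤ _
    omega

/-! ## times of the passes -/

/-- number of steps of the passes `0, …, j` -/
def tau (w : List Bool) : ℕ → ℕ
  | 0 => (st w 0).1.length
  | j + 1 => tau w j + (st w (j + 1)).1.length

theorem run_tau (w : List Bool) (hw : 5 ≤ w.length) (j : ℕ)
    (hj : ∀ i < j, 3 ≤ (st w i).1.length) :
    run (tau w j) w = some ((bin (st w j).1).drop ((st w j).2 : ℕ)) := by
  induction j with
  | zero => exact raw_full w hw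
  | succ j ih =>
    have h := ih (fun i hi => hj i (by omega))
    show run (tau w j + (st w (j + 1)).1.length) w = _
    rw [run_add, h, Option.bind_some]
    exact pass_full (st w j).1 (st w j).2 (hj j (by omega))

/-- the raw pass -/
theorem raw_times (w : List Bool) (hw : 5 ≤ w.length) (t : ℕ) (ht : t ≤ tau w 0) :
    ∃ t' w' p d, t ≤ t' ∧ t' ≤ t + 2 ∧ run t' w = some w' ∧ p ≤ w.length ∧ d ≤ 2 ∧
      w'.length + d = (w.length - p) + FF (X w 1) (w.take p) := by
  obtain ⟨p, hp, h1, h2⟩ := find_p w 0 t ht
  by_cases hp2 : p + 2 ≤ w.length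
  · have h3 := raw_word (w.take p) 0 (w.drop p) (by rw [List.length_drop]; omega)
    have h4 : ((w.take p ++ w.drop p).drop ((0 : Fin 3) : ℕ)) = w := by
      rw [List.take_append_drop]; rfl
    rw [h4] at h3
    refine ⟨(Aw w 0 p).length, _, p,
      min ((rext (w.take p) 0 : Fin 3) : ℕ) (w.drop p ++ bin (rsec (w.take p) 0)).length,
      h1, by simpa using (le_trans h2 (by omega)), h3, hp, ?_, ?_⟩
    · have := (rext (w.take p) 0).isLt
      omega
    · rw [List.length_drop]
      have h5 : (w.drop p ++ bin (rsec (w.take p) 0)).length =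
          (w.length - p) + FF (X w 1) (w.take p) := by
        rw [List.length_append, List.length_drop, FF_Aw, Aw_zero_pass]
      omega
  · -- the last letters: use the end of the pass
    have h3 := raw_full w hw
    have h6 : (st w 0).1.length ≤ t + 2 := by
      have e1 : (Aw w 0 w.length).length = (st w 0).1.length := by rw [Aw_all]
      have hA1 := Aw_step w 0 p
      by_cases hpw : p = w.length
      · rw [hpw] at h2
        rw [← e1]
        simp only [pow_zero] at h2
        omega
      · have hp1 : p + 1 = w.length := by omega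
        rw [hp1, e1] at hA1
        simp only [pow_zero] at hA1 h2
        omega
    refine ⟨(st w 0).1.length, _, w.length,
      min ((rext w 0 : Fin 3) : ℕ) (bin (rsec w 0)).length, ht, h6, h3, le_rfl, ?_, ?_⟩
    · have := (rext w 0).isLt
      omega
    · rw [List.length_drop, FF_Aw, Aw_all]
      show (bin (rsec w 0)).length - _ + _ = (w.length - w.length) + (bin (rsec w 0)).length
      omega

/-- the later passes -/
theorem blk_times (w : List Bool) (j : ℕ)
    (hrun : run (tau w j) w = some ((bin (st w j).1).drop ((st w j).2 : ℕ)))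
    (h3 : 3 ≤ (st w j).1.length) (t : ℕ) (ht1 : tau w j ≤ t) (ht2 : t ≤ tau w (j + 1)) :
    ∃ t' w' p d, t ≤ t' ∧ t' ≤ t + 2 ^ (j + 1) ∧ run t' w = some w' ∧ p ≤ w.length ∧ d ≤ 2 ∧
      w'.length + d + FF (X w (j + 1)) (w.take p) =
        FF (X w (j + 1)) w + FF (X w (j + 2)) (w.take p) := by
  have ht3 : t - tau w j ≤ (st w (j + 1)).1.length := by
    have : tau w (j + 1) = tau w j + (st w (j + 1)).1.length := rfl
    omega
  obtain ⟨p, hp, h1, h2⟩ := find_p w (j + 1) (t - tau w j) ht3
  have hFF : FF (X w (j + 1)) w = (bin (Aw w j p)).length + (bin (Bw w j p)).length := by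
    have e : FF (X w (j + 1)) w = (bin (st w j).1).length := by
      unfold FF; rw [rsecs_X]
    rw [e, Aw_Bw w j p, bin_append, List.length_append]
  by_cases hB : Bw w j p = []
  · -- full pass
    have hA : Aw w j p = (st w j).1 := by
      have := Aw_Bw w j p
      rw [hB, List.append_nil] at this
      exact this.symm
    have hA1 : Aw w (j + 1) p = (st w (j + 1)).1 := by
      rw [Aw_succ, hA]; rfl
    have h4 := pass_full (st w j).1 (st w j).2 h3
    refine ⟨tau w j + (Aw w (j + 1) p).length,
      ((bin (st w (j + 1)).1).drop ((st w (j + 1)).2 : ℕ)), p,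
      min ((st w (j + 1)).2 : ℕ) (bin (st w (j + 1)).1).length, by omega, by omega, ?_, hp, ?_, ?_⟩
    · rw [hA1, run_add, hrun, Option.bind_some]
      exact h4
    · have := (st w (j + 1)).2.isLt
      omega
    · rw [List.length_drop, hFF, FF_Aw, FF_Aw w (j + 1), hA1, hB]
      simp only [bin, List.length_nil]
      omega
  · have hZ : 2 ≤ (bin (Bw w j p)).length := by
      cases hb : Bw w j p with
      | nil => exact absurd hb hB
      | cons c V => cases c <;> simp [bin]
    have h4 := run_word (Aw w j p) (st w j).2 (bin (Bw w j p)) hZ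
    have h5 : bin (Aw w j p) ++ bin (Bw w j p) = bin (st w j).1 := by
      rw [Aw_Bw w j p, bin_append]
    rw [h5, ← Aw_succ] at h4
    refine ⟨tau w j + (Aw w (j + 1) p).length,
      ((bin (Bw w j p) ++ bin (Aw w (j + 1) p)).drop
        ((ext (Aw w j p) (st w j).2 : Fin 3) : ℕ)), p,
      min ((ext (Aw w j p) (st w j).2 : Fin 3) : ℕ) (bin (Bw w j p) ++ bin (Aw w (j + 1) p)).length,
      by omega, by omega, ?_, hp, ?_, ?_⟩
    · rw [run_add, hrun, Option.bind_some]
      exact h4
    · have := (ext (Aw w j p) (st w j).2).isLt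
      omega
    · rw [List.length_drop, hFF, FF_Aw, FF_Aw w (j + 1), List.length_append]
      omega

end Pool.Agent.Helper34.LL
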