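import Pool.Agent.Helper34.SD.Path

/-!
# Post's tag system (MP_41f897_lc): the length law for almost all words; definitions and module statements
-/

set_option autoImplicit false

namespace Pool.Agent.Helper34.LL

open Pool.Agent.Helper34.PT Pool.Agent.Helper34.SD

/-- length of the binary form of the section of the raw word `w` at the profile `x` (`x` not empty) -/
def FF (x : List (Fin 3)) (w : List Bool) : ℕ := (bin (rsecs w x)).length

/-- additive functional along a word -/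
def Phi {X : Type} (mv : X → Bool → X) (ph : X → Bool → ℝ) : X → List Bool → ℝ
  | _, [] => 0
  | x, b :: w => ph x b + Phi mv ph (mv x b) w

/-- Module LA: Poisson equation. -/
def Stmt_LA : Prop := ∀ (X : Type) [Fintype X] (p0 p1 : Equiv.Perm X) (f : X → ℝ),
  (∀ x y : X, ∃ k : ℕ, (p0 ^ k) x = y) → ∑ x, f x = 0 →
  ∃ g : X → ℝ, ∀ x, f x = g x - (g (p0 x) + g (p1 x)) / 2

/-- Module LB: maximal inequality. -/
def Stmt_LB : Prop := ∀ (X : Type) (mv : X → Bool → X) (ph : X → Bool → ℝ) (c : ℝ), 0 ≤ c →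
  (∀ x, ph x false + ph x true = 0) → (∀ x b, |ph x b| ≤ c) →
  ∀ (n : ℕ) (a : ℝ), 0 < a → ∀ x : X,
    ({w : List Bool | w.length = n ∧ ∃ p ≤ n, a ≤ |Phi mv ph x (w.take p)|}.ncard : ℝ) * a ^ 2 ≤
      2 ^ n * (n * c ^ 2)

/-- Module LC: conservation of the mean length. -/
def Stmt_LC : Prop := ∀ T : ℕ,
  ∑ x : List.Vector (Fin 3) (T + 1), (FF x.toList [false] + FF x.toList [true]) = 2 * 3 ^ (T + 1)

/-- Module LD: law of large numbers for every fixed profile. -/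
def Stmt_LD : Prop := ∀ (T : ℕ) (ε : ℝ), 0 < ε → ∃ K : ℝ, ∀ n : ℕ, 1 ≤ n →
  ∀ x : List (Fin 3), x.length = T + 1 →
    ({w : List Bool | w.length = n ∧
      ∃ p ≤ n, ε * n < |(FF x (w.take p) : ℝ) - p|}.ncard : ℝ) ≤ K * 2 ^ n / n

/-- Module LE: deterministic part. -/
def Stmt_LE : Prop := ∀ (C : ℕ) (ε : ℝ), 0 < ε → ∃ (m : ℕ) (η : ℝ) (n₀ : ℕ), 0 < η ∧
  ∀ w : List Bool, n₀ ≤ w.length →
    (∀ T ≤ m, ∀ x : List (Fin 3), x.length = T + 1 → ∀ p ≤ w.length,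
      |(FF x (w.take p) : ℝ) - p| ≤ η * w.length) →
    ∀ t ≤ C * w.length, ∃ w' : List Bool, run t w = some w' ∧
      (1 - ε) * w.length ≤ w'.length ∧ (w'.length : ℝ) ≤ (1 + ε) * w.length

/-- Module LF: the length law. -/
def Stmt_LF : Prop := ∀ (C : ℕ) (ε : ℝ), 0 < ε → ∃ n₀ : ℕ, ∀ n : ℕ, n₀ ≤ n →
  (1 - ε) * 2 ^ n ≤ ({w : List Bool | w.length = n ∧ ∀ t ≤ C * n, ∃ w' : List Bool,
    run t w = some w' ∧ (1 - ε) * n ≤ w'.length ∧ (w'.length : ℝ) ≤ (1 + ε) * n}.ncard : ℝ)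

end Pool.Agent.Helper34.LL
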