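import Pool.Agent.Helper34.LL.Defs

/-!
# Post's tag system (MP_41f897_lc): the length law, quantitative form; module statements
-/

set_option autoImplicit false

namespace Pool.Agent.Helper34.LL

open Pool.Agent.Helper34.PT Pool.Agent.Helper34.SD

/-- Module LA2: Poisson equation with a bound. -/
def Stmt_LA2 : Prop := ∀ (X : Type) [Fintype X] (p0 p1 : Equiv.Perm X) (f : X → ℝ) (F : ℝ),
  (∀ x y : X, ∃ k : ℕ, (p0 ^ k) x = y) → ∑ x, f x = 0 → 0 ≤ F → (∀ x, |f x| ≤ F) →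
  ∃ g : X → ℝ, (∀ x, f x = g x - (g (p0 x) + g (p1 x)) / 2) ∧
    ∀ x, |g x| ≤ 4 * (Fintype.card X : ℝ) ^ 2 * F

/-- Module LD2: the fluctuations for a fixed profile. -/
def Stmt_LD2 : Prop := ∀ (T n : ℕ) (a : ℝ), 0 < a → ∀ x : List (Fin 3), x.length = T + 1 →
  ({w : List Bool | w.length = n ∧
    ∃ p ≤ n, a + 400 * 18 ^ T ≤ |(FF x (w.take p) : ℝ) - p|}.ncard : ℝ) * a ^ 2 ≤
    2 ^ n * (n * (400 * 18 ^ T) ^ 2)

/-- Module LE2: deterministic part. -/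
def Stmt_LE2 : Prop := ∀ (m : ℕ) (a : ℝ) (w : List Bool), 24 ≤ w.length → 6 * a ≤ w.length →
  (∀ T ≤ m, ∀ x : List (Fin 3), x.length = T + 1 → ∀ p ≤ w.length,
    |(FF x (w.take p) : ℝ) - p| ≤ a) →
  ∀ t : ℕ, 8 * t ≤ (m + 1) * w.length → ∃ w' : List Bool, run t w = some w' ∧
    |(w'.length : ℝ) - w.length| ≤ 3 * a + 2 ^ (m + 1) + 6

/-- Module LF2: the length law. -/
def Stmt_LF2 : Prop := ∀ δ : ℝ, 0 < δ → ∃ (c : ℝ) (n₀ : ℕ), 0 < c ∧ ∀ n : ℕ, n₀ ≤ n →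
  (1 - (n : ℝ) ^ (-c)) * 2 ^ n ≤ ({w : List Bool | w.length = n ∧
    ∀ t : ℕ, (t : ℝ) ≤ c * n * Real.log n → ∃ w' : List Bool, run t w = some w' ∧
      |(w'.length : ℝ) - n| ≤ (n : ℝ) ^ (1 / 2 + δ)}.ncard : ℝ)

end Pool.Agent.Helper34.LL
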