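import Pool.Agent.Helper34.LL.E
import Pool.Agent.Helper34.LL.Defs2

/-!
# Post's tag system (MP_41f897_lc), module LE2: the deterministic part of the length law
-/

set_option autoImplicit false

namespace Pool.Agent.Helper34.LL

open Pool.Agent.Helper34.PT Pool.Agent.Helper34.SD

theorem bin_le_four' (W : List Bool) : (bin W).length ≤ 4 * W.length := by
  induction W with
  | nil => simp [bin]
  | cons c W ih => cases c <;> simp [bin] <;> omega

theorem hLE2 : Stmt_LE2 := by
  intro m a w hn24 ha6 H t ht
  set n : ℕ := w.length with hn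
  have hn0 : (0 : ℝ) ≤ n := Nat.cast_nonneg _
  have H' : ∀ j ≤ m, ∀ p ≤ n, |(FF (X w (j + 1)) (w.take p) : ℝ) - p| ≤ a := by
    intro j hj p hp
    exact H j hj (X w (j + 1)) (X_length _ _) p hp
  have ha0 : 0 ≤ a := le_trans (abs_nonneg _) (H' 0 (Nat.zero_le _) 0 (Nat.zero_le _))
  have Hfull : ∀ j ≤ m, |(FF (X w (j + 1)) w : ℝ) - n| ≤ a := by
    intro j hj
    have h := H' j hj n le_rfl
    rwa [hn, List.take_length] at h
  have hWlen : ∀ j ≤ m, n ≤ 8 * (st w j).1.length := by
    intro j hj
    have h1 := Hfull j hj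
    have h2 : FF (X w (j + 1)) w ≤ 4 * (st w j).1.length := by
      unfold FF
      rw [rsecs_X]
      exact bin_le_four' _
    have h2' : (FF (X w (j + 1)) w : ℝ) ≤ 4 * (st w j).1.length := by exact_mod_cast h2
    have h3 := (abs_le.1 h1).1
    have h5 : (n : ℝ) ≤ 8 * (st w j).1.length := by linarith
    exact_mod_cast h5
  have hW3 : ∀ j ≤ m, 3 ≤ (st w j).1.length := by
    intro j hj
    have := hWlen j hj
    omega
  have htau : ∀ j ≤ m, (j + 1) * n ≤ 8 * tau w j := by
    intro j
    induction j with
    | zero =>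
      intro h
      have := hWlen 0 h
      simpa [tau] using this
    | succ j ih =>
      intro h
      have h1 := ih (by omega)
      have h2 := hWlen (j + 1) h
      have e : tau w (j + 1) = tau w j + (st w (j + 1)).1.length := rfl
      rw [e]
      have e2 : (j + 1 + 1) * n = (j + 1) * n + n := by ring
      omega
  have htm : t ≤ tau w m := by
    have h1 := htau m le_rfl
    omega
  have hrun : ∀ j ≤ m, run (tau w j) w = some ((bin (st w j).1).drop ((st w j).2 : ℕ)) := by
    intro j hj
    exact run_tau w (by omega) j (fun i hi => hW3 i (by omega))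
  -- a good time shortly after `t`
  have key : ∃ t' w', t ≤ t' ∧ t' ≤ t + (2 ^ m + 2) ∧ run t' w = some w' ∧
      |(w'.length : ℝ) - n| ≤ 3 * a + 2 := by
    by_cases h0 : t ≤ tau w 0
    · obtain ⟨t', w', p, d, h1, h2, h3, h4, h5, h6⟩ := raw_times w (by omega) t h0
      refine ⟨t', w', h1, le_trans h2 (Nat.add_le_add_left (Nat.le_add_left _ _) t), h3, ?_⟩
      have h7 := abs_le.1 (H' 0 (by omega) p h4)
      have h8 : (w'.length : ℝ) + d = (n - p) + FF (X w 1) (w.take p) := by
        have : ((w'.length + d : ℕ) : ℝ) = (((n - p) + FF (X w 1) (w.take p) : ℕ) : ℝ) := by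
          rw [h6]
        push_cast at this
        rw [Nat.cast_sub h4] at this
        exact this
      have h9 : (d : ℝ) ≤ 2 := by exact_mod_cast h5
      have h10 : (0 : ℝ) ≤ d := Nat.cast_nonneg _
      simp only [zero_add] at h7
      rw [abs_le]
      constructor <;> linarith [h7.1, h7.2]
    · classical
      have hex : ∃ j, t ≤ tau w j := ⟨m, htm⟩
      have hj0 : Nat.find hex ≠ 0 := by
        intro h
        have := Nat.find_spec hex
        rw [h] at this
        exact h0 this
      obtain ⟨j, hj⟩ := Nat.exists_eq_succ_of_ne_zero hj0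
      have hjm : j + 1 ≤ m := by
        have := Nat.find_min' hex htm
        omega
      have hj1 : t ≤ tau w (j + 1) := by
        have := Nat.find_spec hex
        rwa [hj] at this
      have hj2 : tau w j ≤ t := by
        have := Nat.find_min hex (m := j) (by omega)
        omega
      obtain ⟨t', w', p, d, h1, h2, h3, h4, h5, h6⟩ :=
        blk_times w j (hrun j (by omega)) (hW3 j (by omega)) t hj2 hj1
      have hpow : 2 ^ (j + 1) ≤ 2 ^ m := Nat.pow_le_pow_right (by norm_num) hjm
      refine ⟨t', w', h1, by omega, h3, ?_⟩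
      have h7 := abs_le.1 (H' j (by omega) p h4)
      have h7' := abs_le.1 (H' (j + 1) hjm p h4)
      have h7'' := abs_le.1 (Hfull j (by omega))
      have h8 : (w'.length : ℝ) + d + FF (X w (j + 1)) (w.take p) =
          FF (X w (j + 1)) w + FF (X w (j + 2)) (w.take p) := by exact_mod_cast h6
      have h9 : (d : ℝ) ≤ 2 := by exact_mod_cast h5
      have h10 : (0 : ℝ) ≤ d := Nat.cast_nonneg _
      have h11 : (FF (X w (j + 1 + 1)) (w.take p) : ℝ) = FF (X w (j + 2)) (w.take p) := rfl
      rw [h11] at h7'
      rw [abs_le]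
      constructor <;> linarith [h7.1, h7.2, h7'.1, h7'.2, h7''.1, h7''.2]
  obtain ⟨t', w', h1, h2, h3, h4⟩ := key
  obtain ⟨w'', h5, h6⟩ := run_def h3 h1
  refine ⟨w'', h5, ?_⟩
  have h7 := run_len _ _ _ h6
  have h8 : t' - t ≤ 2 ^ m + 2 := by omega
  have h9 : (w''.length : ℝ) ≤ w'.length + (2 ^ m + 2) := by
    have : w''.length ≤ w'.length + (2 ^ m + 2) := by omega
    exact_mod_cast this
  have h10 : (w'.length : ℝ) ≤ w''.length + (2 ^ m + 2) := by
    have : w'.length ≤ w''.length + (2 ^ m + 2) := by omega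
    exact_mod_cast this
  have h11 := abs_le.1 h4
  have h12 : (0 : ℝ) < 2 ^ m := by positivity
  have h13 : (2 : ℝ) ^ (m + 1) = 2 * 2 ^ m := by ring
  rw [h13, abs_le]
  constructor <;> linarith [h11.1, h11.2]

end Pool.Agent.Helper34.LL
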